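import Pool.Agent.Helper8.DV.MainU

/-!
Positive definite `SO(3)`-connections with pinched curvature matrix over closed 4-manifolds:
no nonzero square integrable closed 2-form on a covering is a section of `Λ⁺_A`.

Remarks on the definitions. An oriented rank 3 bundle with fibre metric and metric connection is
given by connection forms and transition functions over charts which cover `X` (`Bundle`); the
local frames are orthonormal and oriented, `so(E) = E` is `ℝ³` with the cross product. For a
definite `F` and `u ≠ 0` there is exactly one `v` with `F_1(v,·) = F_2(u,·)`, then
`F(u,v) = (0, 0, F_3(u,v))` is nonzero, and its sign does not depend on `u` nor on the frame: the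
third clause of `PosDef` says that `(F_1, F_2, F_3)` is an oriented basis of `Λ⁺`. The sign is
checked on the standard connection over the round 4-sphere, in stereographic coordinates, in
`Pool.Agent.Helper64.DC.Sanity` (theorems `curv_inst`, `posDef_inst`, `pinched_inst`).
A covering `X'` of `X` with fibre `S` is given by locally constant transition functions with values
in the permutations of `S` (`Cov`), over charts over which it is trivial (for a given covering the
charts can be chosen so small that it is trivial over them). A section of the pull-back of `E` to
`X'` is given by its representatives on the sheets (`Form`); as the frames are orthonormal, the sum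
over all sheets of the integrals of `|φ|²` over the compact subsets of the charts is finite
(`SquareIntegrable`) if and only if the 2-form `⟨φ, F⟩` is square integrable over `X'` for the
pull-back of a metric of `X`.
-/

set_option autoImplicit false

open scoped Manifold ContDiff

namespace Pool.Agent.Results.MP_40765b_gt.CoveringForms

open Pool.Agent.Helper8.DV

/-- **Theorem.** Let `X` be a closed 4-manifold with a positive definite `SO(3)`-connection `A`
whose curvature matrix satisfies `2 tr M² ≤ (tr M)²` (the eigenvalues of `√M` satisfy the triangle
inequality, that is `√M ≤ Λ/2` for `g_A`), and let `X' → X` be a covering with countable fibre.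
Then every square integrable closed 2-form on `X'` which is a section of the pull-back of `Λ⁺_A`
vanishes.

Proof: for such a form `⟨φ, F⟩` the divergence of the vector density
`V^l = ε^{lmnp} ⟨φ, ∇_m φ × F_np⟩ / 2` is the sum of a quadratic form in `∇ φ`, which is
nonnegative under the pinching condition and the closedness, and of `⟨φ × F, φ × F⟩ > 0`. By the
divergence theorem both vanish, if `V` is integrable over `X'`. This holds, since `∇ φ` is square
integrable: if one replaces `F` by `adj(M) F` in `V`, the quadratic form in `∇ φ` becomes positive
definite (for closed forms, without any pinching condition), and the rest is at most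
`C |φ| (|φ| + |∇ φ|)`; with a cutoff function this gives the estimate
`∫_K |∇ φ|² ≤ C' ∫_K' |φ|²` on every sheet over a chart. -/
theorem result {X : Type} [TopologicalSpace X] [ChartedSpace E4 X] [IsManifold (𝓡 4) ∞ X]
    [T2Space X] [CompactSpace X] (P : Bundle X) (hP : P.PositiveDefinite)
    (hpin : P.IsPinched) {S : Type} [Countable S] (C : Cov P S) (φ : Form P C)
    (hφ : φ.Closed) (hL : φ.SquareIntegrable) :
    ∀ i x, ∀ y ∈ dom (P.c i), φ.s i x y = 0 :=
  vanishU P hP hpin C φ hφ hL

end Pool.Agent.Results.MP_40765b_gt.CoveringForms
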