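import Pool.Agent.Helper8.DV.MainX

/-!
# Critical connections of functionals `∫ f (M)`

Let `A` be a positive definite connection over a closed smooth 4-manifold `X`, with curvature
`F = ∑ F_a ⊗ e_a` and `M_ab = F_a ∧ F_b`, a positive element of `S²E ⊗ Λ⁴`. Let `f` be a smooth
fibre map from the positive elements of `S²E ⊗ Λ⁴` to `Λ⁴` (for example a smooth function `f (M)`
with `f (g M gᵀ) = f M` for `g` in `SO(3)` and `f (c M) = c f M` for `c > 0`), and let `A` be
critical for `∫_X f (M)`. If for some real numbers `α`, `β` the section `ρ = α + β ψ`,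
`ψ = ∂f/∂M`, is positive definite and `N = ρ M ρ` satisfies `det (tr N · 1 - 2 N) + 24 det N ≥ 0`
everywhere, then `ψ` is a locally constant multiple of the identity.

For `f (M) = (tr √M)²` (the functional of Fine, Krasnov and Panov, up to a constant the volume of
the metric of `A`) and `α = 0` the matrix `N` is a multiple of the identity, so there is no
condition on `M`, and the conclusion is that `M` is a multiple of the identity.

Proof. The Euler-Lagrange equation is `d_A (ψ F) = 0`. So the triple `θ = ρ F` is closed, and
`F = Ψ θ` with `Ψ = ρ⁻¹`. The divergence of the 3-form `∑ ε_abc Ψ_ra ∇Ψ_rb ∧ θ_c` is the sum of a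
quadratic form in `∇Ψ`, which is nonnegative by the condition for `N`, and a form in `Ψ` with the
coefficients `K = M ρ`, which is symmetric, since `d_A² θ = 0`, and positive; it vanishes only if
`Ψ` is a multiple of the identity. By Stokes it vanishes everywhere.
-/

set_option autoImplicit false

open scoped Manifold ContDiff

namespace Pool.Agent.Results.MP_40765b_gt.CriticalConnections

open Pool.Agent.Helper8.DV

/-- **Theorem.** Let `A` be a positive definite connection over a closed smooth 4-manifold,
critical for `∫_X f (M)`. If `ρ = α + β ∂f/∂M > 0` and `N = ρ M ρ` satisfies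
`det (tr N · 1 - 2 N) + 24 det N ≥ 0` everywhere, then `∂f/∂M` is a locally constant multiple of the
identity. -/
theorem result {X : Type} [TopologicalSpace X] [ChartedSpace E4 X] [IsManifold (𝓡 4) ∞ X]
    [T2Space X] [CompactSpace X] (P : Bundle X) (hP : P.PositiveDefinite) (f : Dens P)
    (hcrit : Critical P f) (α β : ℝ)
    (hpos : ∀ i, ∀ y ∈ dom (P.c i), PosM (pencil P f α β i y))
    (hbound : ∀ i, ∀ y ∈ dom (P.c i),
      Bound (pencil P f α β i y * gram (curv (P.A i) y) * pencil P f α β i y)) :
    ∃ s : X → ℝ, IsLocallyConstant s ∧ ∀ i, ∀ y ∈ dom (P.c i),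
      psi P f i y = s ((P.c i).symm y) • (1 : Matrix (Fin 3) (Fin 3) ℝ) :=
  crit P hP f hcrit α β hpos hbound

end Pool.Agent.Results.MP_40765b_gt.CriticalConnections
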