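import Pool.Agent.Helper8.DV.MainN

/-!
Strictly pinched positive definite `SO(3)`-connections over closed 4-manifolds: every closed
2-form has nonpositive square, that is `b_+ = 0`.

Remarks on the definitions. An oriented rank 3 bundle with fibre metric and metric connection is
given by connection forms and transition functions over charts which cover `X` (`Bundle`); the
local frames are orthonormal and oriented, `so(E) = E` is `ℝ³` with the cross product. For a
definite `F` and `u ≠ 0` there is exactly one `v` with `F_1(v,·) = F_2(u,·)`, then
`F(u,v) = (0, 0, F_3(u,v))` is nonzero, and its sign does not depend on `u` nor on the frame: the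
third clause of `PosDef` says that `(F_1, F_2, F_3)` is an oriented basis of `Λ⁺`. The sign is
checked on the standard connection over the round 4-sphere, in stereographic coordinates, in
`Pool.Agent.Helper64.DC.Sanity` (theorems `curv_inst`, `posDef_inst`, `pinched_inst`).
A smooth 2-form on `X` is given by its components in the charts (`IsTwo`); `X` is oriented by the
connection, all the charts are oriented (second clause of `PosDef`), and the sum in the theorem is
the integral of `η ∧ η` over `X`.
-/

set_option autoImplicit false

open scoped Manifold ContDiff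
open MeasureTheory

namespace Pool.Agent.Results.MP_40765b_gt.NegativeSquares

open Pool.Agent.Helper8.DV

/-- **Theorem.** Let `X` be a closed 4-manifold with a positive definite `SO(3)`-connection `A`
whose curvature matrix satisfies `2 tr M² < (tr M)²` everywhere (`√M < Λ/2` for `g_A`). Then
`∫_X η ∧ η ≤ 0` for every closed 2-form `η`; in other words `b_+(X) = 0`.

Proof: for sections `φ` of `E` the integral of a quadratic form in `∇ φ` plus
`⟨φ × F, φ × F⟩` is zero, which gives the estimate `‖φ‖ ≤ C ‖d⟨φ, F⟩‖` in `L²`. If the `Λ⁺`-part of
`η` is not in the `L²`-closure of the `Λ⁺`-parts of exact forms, the theorem of Hahn-Banach gives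
an `L²` section `u ≠ 0` of `E` with `d⟨u, F⟩ = 0` weakly; by mollification (Friedrichs) `u` is the
limit of smooth `φ_n` with `d⟨φ_n, F⟩ → 0`, a contradiction to the estimate. So
`∫ η ∧ η = ∫ (η - da) ∧ (η - da) ≤ C ‖(η - da)⁺‖² → 0`. -/
theorem result {X : Type} [TopologicalSpace X] [ChartedSpace E4 X] [IsManifold (𝓡 4) ∞ X]
    [T2Space X] [CompactSpace X] (P : Bundle X) (hP : P.PositiveDefinite)
    (hpin : P.StrictlyPinched)
    (η : P.ι → E4 → Fin 4 → Fin 4 → ℝ) (hη : IsTwo P η)
    (hc : ∀ i, ∀ y ∈ dom (P.c i), ClosedAt (η i) y)
    (f : SmoothPartitionOfUnity P.ι (𝓡 4) X Set.univ)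
    (hf : f.IsSubordinate fun i => (P.c i).source) :
    ∑ᶠ i, ∫ y in dom (P.c i), f i ((P.c i).symm y) * wedge (η i y) (η i y) ≤ 0 :=
  square_nonpos P hP hpin η hη hc f hf

end Pool.Agent.Results.MP_40765b_gt.NegativeSquares
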