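import Pool.Agent.Helper8.DV.MainA

/-!
Positive definite `SO(3)`-connections with pinched curvature matrix over closed 4-manifolds:
no nonzero closed 2-form with values in a bundle with anti-self-dual curvature is a section of
`Λ⁺_A`.

Remarks on the definitions. An oriented rank 3 bundle with fibre metric and metric connection is
given by connection forms and transition functions over charts which cover `X` (`Bundle`); the
local frames are orthonormal and oriented, `so(E) = E` is `ℝ³` with the cross product. For a
definite `F` and `u ≠ 0` there is exactly one `v` with `F_1(v,·) = F_2(u,·)`, then
`F(u,v) = (0, 0, F_3(u,v))` is nonzero, and its sign does not depend on `u` nor on the frame: the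
third clause of `PosDef` says that `(F_1, F_2, F_3)` is an oriented basis of `Λ⁺`. The sign is
checked on the standard connection over the round 4-sphere, in stereographic coordinates, in
`Pool.Agent.Helper64.DC.Sanity` (theorems `curv_inst`, `posDef_inst`, `pinched_inst`).
The coefficients `L` are a real vector bundle with fibre metric and metric connection, given in the
same way over the same charts (`Coef`); its curvature is `mcurv`, and `AntiSelfDual` says that it is
orthogonal to `Λ⁺_A` (for the wedge product), that is a section of `Λ⁻ ⊗ so(L)`.
-/

set_option autoImplicit false

open scoped Manifold ContDiff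

namespace Pool.Agent.Results.MP_40765b_gt.PinchedInstantons

open Pool.Agent.Helper8.DV

/-- **Theorem.** Let `X` be a closed 4-manifold with a positive definite `SO(3)`-connection `A`
whose curvature matrix satisfies `2 tr M² ≤ (tr M)²` (the eigenvalues of `√M` satisfy the triangle
inequality, that is `√M ≤ Λ/2` for `g_A`). Let `L` be a real vector bundle with fibre metric and a
metric connection `B` whose curvature is anti-self-dual for the conformal structure and the
orientation defined by `A`. Then every 2-form `η` with values in `L` which is a section of `Λ⁺_A`
and satisfies `d_B η = 0` vanishes.

Proof: for such a form `⟨φ, F⟩`, `φ` a section of `L ⊗ E`, the divergence of the vector density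
`V^l = ε^{lmnp} ⟨φ, ∇_m φ × F_np⟩ / 2` is the sum of a quadratic form in `∇ φ`, which is
nonnegative under the pinching condition and the closedness, of `⟨φ × F, φ × F⟩ > 0`, and of a term
with the curvature `G` of `B`, which is a combination of the products `G ∧ F_c = 0`; by the
divergence theorem the first two vanish. -/
theorem result {X : Type} [TopologicalSpace X] [ChartedSpace E4 X] [IsManifold (𝓡 4) ∞ X]
    [T2Space X] [CompactSpace X] (P : Bundle X) (hP : P.PositiveDefinite)
    (hpin : P.IsPinched) {N : ℕ} (L : Coef P N) (hL : L.AntiSelfDual) (φ : Sect P L)
    (hφ : φ.Closed) : ∀ i, ∀ y ∈ dom (P.c i), φ.s i y = 0 :=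
  vanish P hP hpin L hL φ hφ

end Pool.Agent.Results.MP_40765b_gt.PinchedInstantons
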